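import Pool.Agent.H53.SL.Fin

/-!
# MP_3d3e81_co, Q1: YES

There is a finite graph `G` such that a set `S` of slopes is good (every cubic graph has a
straight-line drawing with slopes in `S`) if and only if `G` has a straight-line drawing with `S`.

Definitions (file `Pool/Agent/H53/SL/Base.lean`):
* slopes are elements of `Option ℝ`: `none` is the vertical direction, `some m` the slope `m`;
* `SL.slp p q` is the slope of the line through `p` and `q`;
* `SL.Draws S G`: there is an injective map `f` from the vertices to the plane such that every edge
  `uv` has slope in `S` and no other vertex lies in the open segment `f u, f v`;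
* `SL.Cubic G`: every vertex has exactly three neighbours;
* `SL.Good S`: every cubic graph on a finite vertex set `Fin m` has a drawing with `S`.
-/

namespace Pool.Agent.Results.MP_3d3e81_co.FiniteTestGraph

/-- There is a finite graph which has a straight-line drawing with `S` exactly for the good sets
of slopes `S`. -/
theorem result : ∃ (n : ℕ) (G : SimpleGraph (Fin n)),
    ∀ S : Set (Option ℝ), SL.Good S ↔ SL.Draws S G := by
  obtain ⟨n, G, -, h⟩ := SL.finite_test_graph
  exact ⟨n, G, h⟩

end Pool.Agent.Results.MP_3d3e81_co.FiniteTestGraph
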